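import Mathlib

open Set Filter Topology

namespace Pool.Agent.Helper92.Old.SmallWeight

/-- `IsSFIP F`: every intersection of finitely many members of the family `F` of subsets of `ℕ` is
infinite (the strong finite intersection property). -/
def IsSFIP (F : Set (Set ℕ)) : Prop :=
  ∀ s : Finset (Set ℕ), (s : Set (Set ℕ)) ⊆ F → (⋂ A ∈ s, A).Infinite

/-- `P` is a pseudo-intersection of `F`: it is infinite and almost contained in each member. -/
def IsPseudoIntersection (P : Set ℕ) (F : Set (Set ℕ)) : Prop :=
  P.Infinite ∧ ∀ A ∈ F, (P \ A).Finite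

/-- The pseudo-intersection number `𝔭`: the least cardinality of a family of subsets of `ℕ` which has
the strong finite intersection property and has no pseudo-intersection. -/
noncomputable def pNumber : Cardinal.{0} :=
  sInf {κ | ∃ F : Set (Set ℕ), Cardinal.mk F = κ ∧ IsSFIP F ∧ ¬ ∃ P, IsPseudoIntersection P F}

/-- In a `T1` space, if `x` is in the closure of the range of a sequence but not in the range,
then every neighbourhood of `x` contains infinitely many terms of the sequence. -/
theorem infinite_terms {X : Type*} [TopologicalSpace X] [T1Space X] (a : ℕ → X) (x : X)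
    (hx : x ∈ closure (range a)) (hxn : x ∉ range a) (U : Set X) (hU : U ∈ 𝓝 x) :
    {k | a k ∈ U}.Infinite := by
  intro hfin
  have h1 : (a '' {k | a k ∈ U}).Finite := hfin.image a
  have h2 : (a '' {k | a k ∈ U})ᶜ ∈ 𝓝 x := by
    refine h1.isClosed.isOpen_compl.mem_nhds ?_
    rintro ⟨k, -, rfl⟩
    exact hxn ⟨k, rfl⟩
  have h3 : U ∩ (a '' {k | a k ∈ U})ᶜ ∈ 𝓝 x := inter_mem hU h2
  obtain ⟨y, ⟨hyU, hy⟩, ⟨k, rfl⟩⟩ := mem_closure_iff_nhds.1 hx _ h3
  exact hy ⟨k, hyU, rfl⟩

/-- An infinite compact Hausdorff group is uncountable. -/
theorem not_countable_of_infinite (G : Type*) [TopologicalSpace G] [AddGroup G]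
    [IsTopologicalAddGroup G] [CompactSpace G] [T2Space G] [Infinite G] : ¬ Countable G := by
  intro hc
  have hne : Nonempty G := ⟨0⟩
  obtain ⟨g, hg⟩ := nonempty_interior_of_iUnion_of_closed (f := fun g : G => ({g} : Set G))
    (fun g => isClosed_singleton) (by ext g; simp)
  have hopen : IsOpen ({g} : Set G) := by
    have h1 : interior ({g} : Set G) = {g} := by
      rcases subset_singleton_iff_eq.1 (interior_subset (s := ({g} : Set G))) with h | h
      · rw [h] at hg
        exact absurd hg not_nonempty_empty
      · exact h
    rw [← h1]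
    exact isOpen_interior
  have hone : IsOpen ({0} : Set G) := by
    have h2 : ({0} : Set G) = (fun x => g + x) ⁻¹' {g} := by
      ext x
      simp
    rw [h2]
    exact hopen.preimage (continuous_const_add g)
  have hd : DiscreteTopology G := discreteTopology_of_isOpen_singleton_zero hone
  exact not_finite_iff_infinite.2 ‹Infinite G› finite_of_compact_of_discrete

/-- Let `I` be an infinite set such that every family of subsets of `ℕ`, indexed by `I`, all of whose
finite intersections are infinite has an infinite pseudo-intersection (for `I` of size `ℵ₁` this is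
the inequality `ω₁ < 𝔭`).  Let `K` be a nontrivial compact Hausdorff first countable group.  Then
every dense countably compact subgroup of `K ^ I` contains an uncountable compact subgroup. -/
theorem main {I : Type*} [Infinite I]
    (hp : ∀ A : I → Set ℕ, (∀ s : Finset I, (⋂ i ∈ s, A i).Infinite) →
      ∃ P : Set ℕ, P.Infinite ∧ ∀ i, (P \ A i).Finite)
    {K : Type*} [TopologicalSpace K] [AddGroup K] [IsTopologicalAddGroup K] [CompactSpace K]
    [T2Space K] [FirstCountableTopology K] [Nontrivial K]
    (D : AddSubgroup (I → K)) (hdense : Dense (D : Set (I → K)))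
    (hcc : IsCountablyCompact (D : Set (I → K))) :
    ∃ C : AddSubgroup (I → K), C ≤ D ∧ IsCompact (C : Set (I → K)) ∧
      ¬ (C : Set (I → K)).Countable := by
  classical
  -- every point of the closure of the range of a sequence in `D` is in `D`
  have key : ∀ a : ℕ → (I → K), (∀ n, a n ∈ D) → closure (range a) ⊆ (D : Set (I → K)) := by
    intro a ha x hx
    by_cases hxr : x ∈ range a
    · obtain ⟨n, rfl⟩ := hxr
      exact ha n
    -- countable bases at the coordinates of `x`
    choose V hV using fun i : I => (𝓝 (x i)).exists_antitone_basis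
    obtain ⟨e⟩ : Nonempty (I ≃ I × ℕ) := by
      apply Cardinal.eq.1 _
      rw [Cardinal.mk_prod, Cardinal.lift_uzero, Cardinal.mk_nat, Cardinal.lift_aleph0]
      exact (Cardinal.mul_aleph0_eq (Cardinal.aleph0_le_mk I)).symm
    let A : I → Set ℕ := fun j => {k | a k (e j).1 ∈ V (e j).1 (e j).2}
    obtain ⟨P, hP, hPA⟩ := hp A (by
      intro s
      have hU : (⋂ j ∈ s, (fun y : I → K => y (e j).1) ⁻¹' V (e j).1 (e j).2) ∈ 𝓝 x := by
        refine (biInter_finset_mem s).2 ?_
        intro j _
        exact (continuous_apply (e j).1).continuousAt.preimage_mem_nhds ((hV (e j).1).1.mem_of_mem trivial)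
      have := infinite_terms a x hx hxr _ hU
      refine this.mono ?_
      intro k hk
      simpa [A] using hk)
    -- enumerate `P`
    let f : ℕ → ℕ := Nat.nth (· ∈ P)
    have hfP : ∀ n, f n ∈ P := fun n => Nat.nth_mem_of_infinite hP n
    have hfinj : Function.Injective f := Nat.nth_injective hP
    have hlim : Tendsto (fun n => a (f n)) atTop (𝓝 x) := by
      rw [tendsto_pi_nhds]
      intro i
      rw [(hV i).1.tendsto_right_iff]
      intro m _
      have hfin : (P \ A (e.symm (i, m))).Finite := hPA _
      have hfin2 : {n | f n ∈ P \ A (e.symm (i, m))}.Finite := hfin.preimage hfinj.injOn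
      have : ∀ᶠ n in atTop, n ∉ {n | f n ∈ P \ A (e.symm (i, m))} := by
        rw [← Nat.cofinite_eq_atTop]
        exact hfin2.compl_mem_cofinite
      filter_upwards [this] with n hn
      by_contra hcon
      apply hn
      refine ⟨hfP n, ?_⟩
      simpa [A] using hcon
    obtain ⟨d, hd, hcl⟩ := hcc.seq_clusterPt (fun n => a (f n)) (Eventually.of_forall fun n => ha _)
    have hdx : d = x := by
      by_contra hne
      exact (hcl.neBot.ne) (by
        have hdisj : Disjoint (𝓝 d) (𝓝 x) := disjoint_nhds_nhds.2 hne
        exact (hdisj.mono_right hlim).eq_bot)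
    exact hdx ▸ hd
  -- `D` is infinite
  have hKI : Infinite (I → K) := Pi.infinite_of_left
  have hDinf : (D : Set (I → K)).Infinite := by
    intro hfin
    have h1 : closure (D : Set (I → K)) = D := hfin.isClosed.closure_eq
    rw [hdense.closure_eq] at h1
    exact infinite_univ (h1 ▸ hfin)
  -- a countable infinite subgroup of `D`
  let b : ℕ → (I → K) := fun n => hDinf.natEmbedding _ n
  have hbinj : Function.Injective b := fun m n h =>
    (hDinf.natEmbedding _).injective (Subtype.ext h)
  have hbD : ∀ n, b n ∈ D := fun n => (hDinf.natEmbedding _ n).2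
  let S : AddSubgroup (I → K) := AddSubgroup.closure (range b)
  have hSD : S ≤ D := by
    rw [AddSubgroup.closure_le]
    rintro _ ⟨n, rfl⟩
    exact hbD n
  have hScount : Countable S := by
    have h1 : S = (FreeAddGroup.lift b).range := FreeAddGroup.range_lift_eq_closure.symm
    have h2 : Countable (FreeAddGroup ℕ) :=
      (Quot.mk_surjective (r := FreeAddGroup.Red.Step (α := ℕ))).countable
    have h3 : (range (FreeAddGroup.lift b)).Countable := countable_range _
    have h4 : (S : Set (I → K)).Countable := by
      rw [h1, AddMonoidHom.coe_range]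
      exact h3
    exact h4.to_subtype
  obtain ⟨a, ha⟩ := exists_surjective_nat S
  have hSrange : range (fun n => ((a n : S) : I → K)) = (S : Set (I → K)) := by
    ext x
    constructor
    · rintro ⟨n, rfl⟩
      exact (a n).2
    · intro hx
      obtain ⟨n, hn⟩ := ha ⟨x, hx⟩
      exact ⟨n, by simp [hn]⟩
  refine ⟨S.topologicalClosure, ?_, ?_, ?_⟩
  · intro x hx
    have h2 : x ∈ closure (range (fun n => ((a n : S) : I → K))) := by
      rw [hSrange]
      exact hx
    exact key _ (fun n => hSD (a n).2) h2
  · exact (S.isClosed_topologicalClosure).isCompact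
  · intro hcount
    have hcpt : CompactSpace S.topologicalClosure :=
      isCompact_iff_compactSpace.1 (S.isClosed_topologicalClosure).isCompact
    have hinf : Infinite S.topologicalClosure := by
      have : (S.topologicalClosure : Set (I → K)).Infinite := by
        refine (infinite_range_of_injective hbinj).mono ?_
        exact AddSubgroup.subset_closure.trans S.le_topologicalClosure
      exact this.to_subtype
    exact not_countable_of_infinite S.topologicalClosure hcount.to_subtype

/-- A countable family with the strong finite intersection property has a pseudo-intersection. -/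
theorem exists_of_countable (F : Set (Set ℕ)) (hF : F.Countable) (hs : IsSFIP F) :
    ∃ P, IsPseudoIntersection P F := by
  classical
  rcases F.eq_empty_or_nonempty with rfl | hne
  · exact ⟨univ, infinite_univ, by simp⟩
  obtain ⟨A, rfl⟩ := hF.exists_eq_range hne
  have hinf : ∀ n, (⋂ i ∈ Finset.range n, A i).Infinite := by
    intro n
    have := hs ((Finset.range n).image A) (by
      intro x hx
      simp only [Finset.coe_image, mem_image] at hx
      obtain ⟨i, -, rfl⟩ := hx
      exact ⟨i, rfl⟩)
    refine this.mono ?_
    intro k hk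
    simp only [mem_iInter, Finset.mem_image] at hk ⊢
    intro i hi
    exact hk (A i) ⟨i, hi, rfl⟩
  -- choose an increasing sequence
  have hex : ∀ n m : ℕ, ∃ k, m < k ∧ k ∈ ⋂ i ∈ Finset.range n, A i := by
    intro n m
    obtain ⟨k, hk, hmk⟩ := (hinf n).exists_gt m
    exact ⟨k, hmk, hk⟩
  choose g hg1 hg2 using hex
  let f : ℕ → ℕ := fun n => Nat.rec (g 0 0) (fun n r => g (n + 1) r) n
  have hfsucc : ∀ n, f (n + 1) = g (n + 1) (f n) := fun n => rfl
  have hfmono : StrictMono f := by
    apply strictMono_nat_of_lt_succ
    intro n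
    rw [hfsucc]
    exact hg1 _ _
  have hfmem : ∀ n, f n ∈ ⋂ i ∈ Finset.range n, A i := by
    intro n
    cases n with
    | zero => exact hg2 0 0
    | succ n => exact hg2 _ _
  refine ⟨range f, infinite_range_of_injective hfmono.injective, ?_⟩
  rintro _ ⟨i, rfl⟩
  have hsub : range f \ A i ⊆ f '' (Finset.range (i + 1) : Set ℕ) := by
    rintro _ ⟨⟨n, rfl⟩, hn⟩
    refine ⟨n, ?_, rfl⟩
    by_contra hcon
    have hin : i < n := by
      simp only [Finset.coe_range, mem_Iio] at hcon
      omega
    apply hn
    have := hfmem n
    simp only [mem_iInter] at this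
    exact this i (Finset.mem_range.2 hin)
  exact ((Finset.range (i + 1)).finite_toSet.image f).subset hsub

/-- Let `K` be a nontrivial compact Hausdorff first countable group (for example the circle group or
a finite cyclic group) and let `I` have cardinality `ℵ₁`.  Either `𝔭 = ℵ₁`, or every dense countably
compact subgroup of `K ^ I` contains an uncountable compact subgroup. -/
theorem result {I : Type*} (hI : Cardinal.mk I = Cardinal.aleph 1)
    {K : Type*} [TopologicalSpace K] [AddGroup K] [IsTopologicalAddGroup K] [CompactSpace K]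
    [T2Space K] [FirstCountableTopology K] [Nontrivial K] :
    pNumber = Cardinal.aleph 1 ∨
      ∀ D : AddSubgroup (I → K), Dense (D : Set (I → K)) →
        IsCountablyCompact (D : Set (I → K)) →
          ∃ C : AddSubgroup (I → K), C ≤ D ∧ IsCompact (C : Set (I → K)) ∧
            ¬ (C : Set (I → K)).Countable := by
  classical
  have hinf : Infinite I := by
    rw [Cardinal.infinite_iff, hI]
    exact Cardinal.aleph0_le_aleph 1
  by_cases hp : ∀ A : I → Set ℕ, (∀ s : Finset I, (⋂ i ∈ s, A i).Infinite) →
      ∃ P : Set ℕ, P.Infinite ∧ ∀ i, (P \ A i).Finite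
  · exact Or.inr fun D hd hc => main hp D hd hc
  · left
    push Not at hp
    obtain ⟨A, hA, hAP⟩ := hp
    have hbad : ¬ ∃ P, IsPseudoIntersection P (range A) := by
      rintro ⟨P, hP, hPA⟩
      obtain ⟨i, hi⟩ := hAP P hP
      exact hi (hPA _ ⟨i, rfl⟩)
    have hsf : IsSFIP (range A) := by
      intro s hs
      obtain ⟨t, -, rfl⟩ := Finset.subset_set_image_iff.1 (by
        rw [image_univ]; exact hs : (s : Set (Set ℕ)) ⊆ A '' univ)
      refine (hA t).mono ?_
      intro k hk
      simp only [mem_iInter, Finset.mem_image] at hk ⊢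
      rintro _ ⟨i, hi, rfl⟩
      exact hk i hi
    have hmem : Cardinal.mk (range A) ∈ {κ | ∃ F : Set (Set ℕ), Cardinal.mk F = κ ∧ IsSFIP F ∧
        ¬ ∃ P, IsPseudoIntersection P F} := ⟨range A, rfl, hsf, hbad⟩
    have hle : Cardinal.mk (range A) ≤ Cardinal.aleph 1 := by
      have h1 := Cardinal.mk_range_le_lift (f := A)
      rw [hI] at h1
      simpa using h1
    apply le_antisymm
    · exact (csInf_le' hmem).trans hle
    · obtain ⟨F, hF, hFs, hFb⟩ := csInf_mem ⟨_, hmem⟩
      have h2 : pNumber = Cardinal.mk F := hF.symm
      rw [h2, ← Cardinal.succ_aleph0, Order.succ_le_iff, ← not_le, Cardinal.mk_le_aleph0_iff]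
      intro hcount
      exact hFb (exists_of_countable F hcount.to_set hFs)

end Pool.Agent.Helper92.Old.SmallWeight
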